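import Mathlib

set_option autoImplicit false

/-! # Regular subdivisions of the hypersimplex `Δ(3,n)` and their octahedral faces -/

namespace Pool.Agent.K1H42.Dress

open Finset

/-- The cell of the regular subdivision of `Δ(d,n)` induced by `w` in direction `c`. -/
def cell {n : ℕ} (d : ℕ) (w : Finset (Fin n) → ℝ) (c : Fin n → ℝ) : Set (Finset (Fin n)) :=
  {B | B.card = d ∧ ∀ B' : Finset (Fin n), B'.card = d →
    w B - ∑ i ∈ B, c i ≤ w B' - ∑ i ∈ B', c i}

theorem sum3 {n : ℕ} (c : Fin n → ℝ) {i j s : Fin n} (hij : i ≠ j) (his : i ≠ s) (hjs : j ≠ s) :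
    ∑ x ∈ (insert i (insert j {s}) : Finset (Fin n)), c x = c i + c j + c s := by
  rw [Finset.sum_insert (by simp [hij, his]), Finset.sum_insert (by simp [hjs]),
    Finset.sum_singleton]
  ring

theorem card3 {n : ℕ} {i j s : Fin n} (hij : i ≠ j) (his : i ≠ s) (hjs : j ≠ s) :
    (insert i (insert j {s}) : Finset (Fin n)).card = 3 := by
  rw [Finset.card_insert_of_notMem (by simp [hij, his]),
    Finset.card_insert_of_notMem (by simp [hjs]), Finset.card_singleton]

/-- equality of `v` minus the linear form on two sets of one cell -/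
theorem cell_eq {n d : ℕ} {v : Finset (Fin n) → ℝ} {c : Fin n → ℝ} {A B : Finset (Fin n)}
    (hA : A ∈ cell d v c) (hB : B ∈ cell d v c) :
    v A - ∑ i ∈ A, c i = v B - ∑ i ∈ B, c i :=
  le_antisymm (hA.2 B hB.1) (hB.2 A hA.1)

theorem octa_refine {n : ℕ} (w v : Finset (Fin n) → ℝ)
    (h : ∀ c : Fin n → ℝ, ∃ c' : Fin n → ℝ, cell 3 w c ⊆ cell 3 v c')
    {s i j k l : Fin n} (his : i ≠ s) (hjs : j ≠ s) (hks : k ≠ s) (hls : l ≠ s)
    (hij : i ≠ j) (hik : i ≠ k) (hil : i ≠ l) (hjk : j ≠ k) (hjl : j ≠ l) (hkl : k ≠ l)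
    (h1 : w (insert i (insert j {s})) + w (insert k (insert l {s})) =
      w (insert i (insert k {s})) + w (insert j (insert l {s})))
    (h2 : w (insert i (insert j {s})) + w (insert k (insert l {s})) ≤
      w (insert i (insert l {s})) + w (insert j (insert k {s}))) :
    v (insert i (insert j {s})) + v (insert k (insert l {s})) =
      v (insert i (insert k {s})) + v (insert j (insert l {s})) := by
  classical
  obtain ⟨t, ht⟩ : ∃ t : ℝ, 2 * t = w (insert i (insert j {s})) + w (insert i (insert k {s})) -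
      w (insert j (insert k {s})) := ⟨_, mul_div_cancel₀ _ two_ne_zero⟩
  obtain ⟨ci, hci⟩ : ∃ ci : ℝ, ci = t := ⟨_, rfl⟩
  obtain ⟨cj, hcj⟩ : ∃ cj : ℝ, cj = w (insert i (insert j {s})) - t := ⟨_, rfl⟩
  obtain ⟨ck, hck⟩ : ∃ ck : ℝ, ck = w (insert i (insert k {s})) - t := ⟨_, rfl⟩
  obtain ⟨cl, hcl⟩ : ∃ cl : ℝ, cl = w (insert k (insert l {s})) -
    w (insert i (insert k {s})) + t := ⟨_, rfl⟩
  obtain ⟨G, hG⟩ : ∃ G : ℝ, G = |ci| + |cj| + |ck| + |cl| := ⟨_, rfl⟩
  obtain ⟨W, hW⟩ : ∃ W : ℝ, ∀ B : Finset (Fin n), |w B| ≤ W :=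
    ⟨∑ B : Finset (Fin n), |w B|, fun B =>
      Finset.single_le_sum (f := fun B => |w B|) (fun _ _ => abs_nonneg _) (Finset.mem_univ B)⟩
  obtain ⟨M, hM⟩ : ∃ M : ℝ, M = G + W := ⟨_, rfl⟩
  have hW0 : 0 ≤ W := (abs_nonneg _).trans (hW ∅)
  have hG0 : 0 ≤ G := by rw [hG]; positivity
  have hM0 : 0 ≤ M := by linarith
  let c : Fin n → ℝ := fun x => if x = s then M else if x = i then ci else if x = j then cj else
    if x = k then ck else if x = l then cl else -M
  let g : Fin n → ℝ := fun x => (if x = i then |ci| else 0) + (if x = j then |cj| else 0) +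
    (if x = k then |ck| else 0) + (if x = l then |cl| else 0)
  have cs : c s = M := by simp [c]
  have cI : c i = ci := by simp [c, his]
  have cJ : c j = cj := by simp [c, hjs, hij.symm]
  have cK : c k = ck := by simp [c, hks, hik.symm, hjk.symm]
  have cL : c l = cl := by simp [c, hls, hil.symm, hjl.symm, hkl.symm]
  have cO : ∀ x, x ≠ s → x ≠ i → x ≠ j → x ≠ k → x ≠ l → c x = -M := by
    intro x h1 h2 h3 h4 h5
    simp [c, h1, h2, h3, h4, h5]
  have g0 : ∀ x, 0 ≤ g x := by
    intro x
    simp only [g]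
    have a1 : (0 : ℝ) ≤ if x = i then |ci| else 0 := by split_ifs <;> positivity
    have a2 : (0 : ℝ) ≤ if x = j then |cj| else 0 := by split_ifs <;> positivity
    have a3 : (0 : ℝ) ≤ if x = k then |ck| else 0 := by split_ifs <;> positivity
    have a4 : (0 : ℝ) ≤ if x = l then |cl| else 0 := by split_ifs <;> positivity
    linarith
  have gsum : ∑ x, g x = G := by
    simp only [g, Finset.sum_add_distrib, Finset.sum_ite_eq', Finset.mem_univ, if_true]
    rw [hG]
  have gle : ∀ x, g x ≤ G := fun x => by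
    rw [← gsum]
    exact Finset.single_le_sum (f := g) (fun y _ => g0 y) (Finset.mem_univ x)
  have cg : ∀ x, x ≠ s → c x ≤ g x := by
    intro x hx
    have a1 : (0 : ℝ) ≤ if x = i then |ci| else 0 := by split_ifs <;> positivity
    have a2 : (0 : ℝ) ≤ if x = j then |cj| else 0 := by split_ifs <;> positivity
    have a3 : (0 : ℝ) ≤ if x = k then |ck| else 0 := by split_ifs <;> positivity
    have a4 : (0 : ℝ) ≤ if x = l then |cl| else 0 := by split_ifs <;> positivity
    by_cases h1 : x = i
    · rw [h1, cI]; simp only [g, if_pos]; rw [h1] at a2 a3 a4; linarith [le_abs_self ci]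
    by_cases h2 : x = j
    · rw [h2, cJ]; simp only [g, if_pos]; rw [h2] at a1 a3 a4; linarith [le_abs_self cj]
    by_cases h3 : x = k
    · rw [h3, cK]; simp only [g, if_pos]; rw [h3] at a1 a2 a4; linarith [le_abs_self ck]
    by_cases h4 : x = l
    · rw [h4, cL]; simp only [g, if_pos]; rw [h4] at a1 a2 a3; linarith [le_abs_self cl]
    rw [cO x hx h1 h2 h3 h4]
    linarith [g0 x]
  have e1 : ci + cj = w (insert i (insert j {s})) := by rw [hci, hcj]; ring
  have e2 : ci + ck = w (insert i (insert k {s})) := by rw [hci, hck]; ring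
  have e3 : ck + cl = w (insert k (insert l {s})) := by rw [hck, hcl]; ring
  have e4 : cj + cl = w (insert j (insert l {s})) := by rw [hcj, hcl]; linarith
  have e5 : cj + ck ≤ w (insert j (insert k {s})) := by rw [hcj, hck]; linarith
  have e6 : ci + cl ≤ w (insert i (insert l {s})) := by rw [hci, hcl]; linarith
  have low : ∀ B : Finset (Fin n), B.card = 3 → -M ≤ w B - ∑ x ∈ B, c x := by
    intro B hB
    have hwB : -W ≤ w B := by linarith [neg_abs_le (w B), hW B]
    by_cases hs : s ∈ B
    · obtain ⟨x, y, hxy, hB2⟩ := Finset.card_eq_two.1 (by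
        rw [Finset.card_erase_of_mem hs, hB] : (B.erase s).card = 2)
      have hx : x ∈ B.erase s := by rw [hB2]; simp
      have hy : y ∈ B.erase s := by rw [hB2]; simp
      have hxs : x ≠ s := Finset.ne_of_mem_erase hx
      have hys : y ≠ s := Finset.ne_of_mem_erase hy
      have hBe : B = insert x (insert y {s}) := by
        rw [← Finset.insert_erase hs, hB2]
        ext z
        simp only [Finset.mem_insert, Finset.mem_singleton]
        tauto
      have hsum : ∑ z ∈ B, c z = c x + c y + M := by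
        rw [hBe, sum3 c hxy hxs hys, cs]
      by_cases hxO : x ≠ i ∧ x ≠ j ∧ x ≠ k ∧ x ≠ l
      · rw [hsum, cO x hxs hxO.1 hxO.2.1 hxO.2.2.1 hxO.2.2.2]
        linarith [cg y hys, gle y]
      by_cases hyO : y ≠ i ∧ y ≠ j ∧ y ≠ k ∧ y ≠ l
      · rw [hsum, cO y hys hyO.1 hyO.2.1 hyO.2.2.1 hyO.2.2.2]
        linarith [cg x hxs, gle x]
      have swap : ∀ a b : Fin n, w (insert a (insert b {s})) = w (insert b (insert a {s})) := by
        intro a b
        rw [Finset.insert_comm]
      have hx4 : x = i ∨ x = j ∨ x = k ∨ x = l := by tauto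
      have hy4 : y = i ∨ y = j ∨ y = k ∨ y = l := by tauto
      have f1 : c i + c j ≤ w (insert i (insert j {s})) := by rw [cI, cJ]; exact e1.le
      have f2 : c i + c k ≤ w (insert i (insert k {s})) := by rw [cI, cK]; exact e2.le
      have f3 : c k + c l ≤ w (insert k (insert l {s})) := by rw [cK, cL]; exact e3.le
      have f4 : c j + c l ≤ w (insert j (insert l {s})) := by rw [cJ, cL]; exact e4.le
      have f5 : c j + c k ≤ w (insert j (insert k {s})) := by rw [cJ, cK]; exact e5
      have f6 : c i + c l ≤ w (insert i (insert l {s})) := by rw [cI, cL]; exact e6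
      have sw : ∀ a b : Fin n, c a + c b ≤ w (insert a (insert b {s})) →
          c b + c a ≤ w (insert b (insert a {s})) := by
        intro a b hab
        rw [swap b a, add_comm]
        exact hab
      have key : c x + c y ≤ w (insert x (insert y {s})) := by
        clear_value c
        rcases hx4 with hx4 | hx4 | hx4 | hx4 <;> rcases hy4 with hy4 | hy4 | hy4 | hy4 <;>
          rw [hx4, hy4] <;>
          first
          | exact f1
          | exact f2
          | exact f3
          | exact f4
          | exact f5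
          | exact f6
          | exact sw _ _ f1
          | exact sw _ _ f2
          | exact sw _ _ f3
          | exact sw _ _ f4
          | exact sw _ _ f5
          | exact sw _ _ f6
          | exact absurd (hx4.trans hy4.symm) hxy
      rw [hsum, hBe]
      linarith
    · have hle : ∑ x ∈ B, c x ≤ G := by
        rw [← gsum]
        refine (Finset.sum_le_sum fun x hx => cg x fun hxs => hs (hxs ▸ hx)).trans ?_
        exact Finset.sum_le_sum_of_subset_of_nonneg (Finset.subset_univ B) fun x _ _ => g0 x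
      linarith
  have mem : ∀ x y : Fin n, x ≠ y → x ≠ s → y ≠ s → c x + c y = w (insert x (insert y {s})) →
      (insert x (insert y {s}) : Finset (Fin n)) ∈ cell 3 w c := by
    intro x y hxy hxs hys hw
    refine ⟨card3 hxy hxs hys, fun B' hB' => ?_⟩
    rw [sum3 c hxy hxs hys, cs, ← hw]
    linarith [low B' hB']
  obtain ⟨c', hc'⟩ := h c
  have m1 := hc' (mem i j hij his hjs (by rw [cI, cJ, e1]))
  have m2 := hc' (mem k l hkl hks hls (by rw [cK, cL, e3]))
  have m3 := hc' (mem i k hik his hks (by rw [cI, cK, e2]))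
  have m4 := hc' (mem j l hjl hjs hls (by rw [cJ, cL, e4]))
  have q1 := cell_eq m1 m3
  have q2 := cell_eq m2 m4
  rw [sum3 c' hij his hjs, sum3 c' hik his hks] at q1
  rw [sum3 c' hkl hks hls, sum3 c' hjl hjs hls] at q2
  linarith

end Pool.Agent.K1H42.Dress
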