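import Mathlib
import Pool.Agent.K1H42.Dress.Octa

set_option autoImplicit false

/-! # The vector in `Dr(3,9)` of the tropical point configuration `{0,1,2} × {0,1}` -/

namespace Pool.Agent.K1H42.Dress

open Finset

/-- the table of weights, as one number in base 4; the digit at place `2^i + 2^j + 2^k` is the
weight of `{i,j,k}` -/
def big : ℕ := 528294531135665246380978688834991568567835952181382021339811452096890314956702114421148343518224328832854276286560505367203989645571407735051698471652054501233599637607216863872947864252482390487002393456745931165049635616077250722441039579548318305499589429075835355136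

/-- the weights in terms of codes -/
def T (m : ℕ) : ℕ := (big >>> (2 * m)) % 4

/-- the code of three elements -/
def cd (i j k : Fin 9) : ℕ := 2 ^ (i : ℕ) + 2 ^ (j : ℕ) + 2 ^ (k : ℕ)

/-- the code of a set -/
def code (B : Finset (Fin 9)) : ℕ := ∑ i ∈ B, 2 ^ (i : ℕ)

/-- the set with a given code -/
def dec (m : ℕ) : Finset (Fin 9) := univ.filter fun i => m.testBit i

/-- the weight vector -/
noncomputable def w (B : Finset (Fin 9)) : ℝ := (T (code B) : ℝ)

theorem code3 {i j k : Fin 9} (hij : i ≠ j) (hik : i ≠ k) (hjk : j ≠ k) :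
    code (insert i (insert j {k})) = cd i j k := by
  unfold code cd
  rw [Finset.sum_insert (by simp [hij, hik]), Finset.sum_insert (by simp [hjk]),
    Finset.sum_singleton]
  ring

theorem w3 {i j k : Fin 9} (hij : i ≠ j) (hik : i ≠ k) (hjk : j ≠ k) :
    w (insert i (insert j {k})) = (T (cd i j k) : ℝ) := by
  unfold w
  rw [code3 hij hik hjk]

theorem dec3 : ∀ i j k : Fin 9, i ≠ j → i ≠ k → j ≠ k →
    dec (cd i j k) = insert i (insert j {k}) := by
  decide +kernel

/-- the minimum of the three numbers is attained at least twice -/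
def rel (a b c : ℕ) : Bool :=
  (a == b && Nat.ble a c) || (a == c && Nat.ble a b) || (b == c && Nat.ble b a)

/-- five different elements -/
def nd (s i j k l : Fin 9) : Bool :=
  i != s && j != s && k != s && l != s && i != j && i != k && i != l && j != k && j != l && k != l

theorem pluckerB : ∀ s i j k l : Fin 9, (!nd s i j k l ||
    rel (T (cd i j s) + T (cd k l s)) (T (cd i k s) + T (cd j l s))
      (T (cd i l s) + T (cd j k s))) = true := by
  decide +kernel

theorem nd_of {s i j k l : Fin 9} (his : i ≠ s) (hjs : j ≠ s) (hks : k ≠ s) (hls : l ≠ s)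
    (hij : i ≠ j) (hik : i ≠ k) (hil : i ≠ l) (hjk : j ≠ k) (hjl : j ≠ l) (hkl : k ≠ l) :
    nd s i j k l = true := by
  simp [nd, his, hjs, hks, hls, hij, hik, hil, hjk, hjl, hkl]

theorem nd_iff {s i j k l : Fin 9} (h : nd s i j k l = true) :
    i ≠ s ∧ j ≠ s ∧ k ≠ s ∧ l ≠ s ∧ i ≠ j ∧ i ≠ k ∧ i ≠ l ∧ j ≠ k ∧ j ≠ l ∧ k ≠ l := by
  simpa [nd, and_assoc] using h

end Pool.Agent.K1H42.Dress
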