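import Mathlib
import Pool.Agent.K1H42.Dress.Data

set_option autoImplicit false

/-! # The vector spans a ray -/

namespace Pool.Agent.K1H42.Dress

open Finset

/-- the equations which hold for all vectors inducing a coarser subdivision than `w` -/
def Octa (v : Finset (Fin 9) → ℝ) : Prop :=
  ∀ s i j k l : Fin 9, nd s i j k l = true →
    T (cd i j s) + T (cd k l s) = T (cd i k s) + T (cd j l s) →
    T (cd i j s) + T (cd k l s) ≤ T (cd i l s) + T (cd j k s) →
    v (dec (cd i j s)) + v (dec (cd k l s)) = v (dec (cd i k s)) + v (dec (cd j l s))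

theorem octa_of_refine (v : Finset (Fin 9) → ℝ)
    (h : ∀ c : Fin 9 → ℝ, ∃ c' : Fin 9 → ℝ, cell 3 w c ⊆ cell 3 v c') : Octa v := by
  intro s i j k l hnd h1 h2
  obtain ⟨his, hjs, hks, hls, hij, hik, hil, hjk, hjl, hkl⟩ := nd_iff hnd
  rw [dec3 _ _ _ hij his hjs, dec3 _ _ _ hkl hks hls, dec3 _ _ _ hik his hks,
    dec3 _ _ _ hjl hjs hls]
  apply octa_refine w v h his hjs hks hls hij hik hil hjk hjl hkl
  · rw [w3 hij his hjs, w3 hkl hks hls, w3 hik his hks, w3 hjl hjs hls]
    exact_mod_cast h1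
  · rw [w3 hij his hjs, w3 hkl hks hls, w3 hil his hls, w3 hjk hjs hks]
    exact_mod_cast h2

/-- subtracting a multiple of `w` and a linear form -/
noncomputable def sub (v : Finset (Fin 9) → ℝ) (lam : ℝ) (c : Fin 9 → ℝ) (B : Finset (Fin 9)) : ℝ :=
  v B - lam * w B - ∑ i ∈ B, c i

theorem octa_sub {v : Finset (Fin 9) → ℝ} (hv : Octa v) (lam : ℝ) (c : Fin 9 → ℝ) :
    Octa (sub v lam c) := by
  intro s i j k l hnd h1 h2
  have h3 := hv s i j k l hnd h1 h2
  obtain ⟨his, hjs, hks, hls, hij, hik, hil, hjk, hjl, hkl⟩ := nd_iff hnd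
  have h4 : (T (cd i j s) : ℝ) + T (cd k l s) = T (cd i k s) + T (cd j l s) := by exact_mod_cast h1
  unfold sub
  rw [dec3 _ _ _ hij his hjs, dec3 _ _ _ hkl hks hls, dec3 _ _ _ hik his hks,
    dec3 _ _ _ hjl hjs hls] at h3 ⊢
  rw [w3 hij his hjs, w3 hkl hks hls, w3 hik his hks, w3 hjl hjs hls,
    sum3 c hij his hjs, sum3 c hkl hks hls, sum3 c hik his hks, sum3 c hjl hjs hls]
  linear_combination h3 - lam * h4

/-- one step of the propagation of zeros -/
def step (K : List ℕ) (t : Fin 9 × Fin 9 × Fin 9 × Fin 9 × Fin 9) : List ℕ :=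
  match t with
  | (s, i, j, k, l) =>
    if (nd s i j k l && (T (cd i j s) + T (cd k l s) == T (cd i k s) + T (cd j l s)) &&
        Nat.ble (T (cd i j s) + T (cd k l s)) (T (cd i l s) + T (cd j k s)) &&
        K.contains (cd k l s) && K.contains (cd i k s) && K.contains (cd j l s)) = true
    then cd i j s :: K else K

theorem step_sound {u : Finset (Fin 9) → ℝ} (hu : Octa u) {K : List ℕ}
    (hK : ∀ m ∈ K, u (dec m) = 0) (t : Fin 9 × Fin 9 × Fin 9 × Fin 9 × Fin 9) :
    ∀ m ∈ step K t, u (dec m) = 0 := by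
  obtain ⟨s, i, j, k, l⟩ := t
  intro m hm
  unfold step at hm
  dsimp only at hm
  split_ifs at hm with hc
  · rcases List.mem_cons.1 hm with rfl | hm
    · simp only [Bool.and_eq_true, beq_iff_eq, Nat.ble_eq, List.contains_iff_mem] at hc
      obtain ⟨⟨⟨⟨⟨h1, h2⟩, h3⟩, h4⟩, h5⟩, h6⟩ := hc
      have h7 := hu s i j k l h1 h2 h3
      rw [hK _ h4, hK _ h5, hK _ h6] at h7
      linarith
    · exact hK m hm
  · exact hK m hm

theorem fold_sound {u : Finset (Fin 9) → ℝ} (hu : Octa u)
    (L : List (Fin 9 × Fin 9 × Fin 9 × Fin 9 × Fin 9)) :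
    ∀ K : List ℕ, (∀ m ∈ K, u (dec m) = 0) → ∀ m ∈ L.foldl step K, u (dec m) = 0 := by
  induction L with
  | nil => intro K hK; exact hK
  | cons t L ih => intro K hK; exact ih (step K t) (step_sound hu hK t)

/-- the steps -/
def steps : List (Fin 9 × Fin 9 × Fin 9 × Fin 9 × Fin 9) := [
  (0,1,5,3,7), (0,1,7,3,5), (3,0,4,7,5), (0,3,6,5,1), (3,0,8,5,7), (0,4,5,3,1), (0,4,7,3,1),
  (0,5,6,1,3), (0,5,8,1,3), (0,6,7,1,3), (8,0,6,3,7), (0,7,8,1,3), (1,2,5,6,0), (3,1,4,0,5),
  (3,1,5,0,4), (1,3,6,5,0), (1,3,7,5,0), (3,1,8,0,7), (1,4,5,3,0), (1,4,6,3,0), (1,4,7,3,0),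
  (1,4,8,5,3), (7,1,6,0,8), (1,6,8,7,3), (6,2,3,1,0), (3,2,8,6,0), (6,2,4,3,1), (2,4,8,6,3),
  (5,2,6,1,0), (5,2,7,1,0), (2,6,7,1,5), (6,2,8,1,0), (2,7,8,5,6), (3,4,6,0,1), (3,4,7,0,1),
  (3,4,8,0,1), (3,5,6,0,1), (3,5,8,0,1), (3,6,7,0,1), (6,3,8,0,1), (4,5,6,0,3), (4,5,7,0,3),
  (4,5,8,0,3), (4,6,7,1,3), (6,4,8,1,0), (4,7,8,0,3), (6,5,7,0,1), (5,6,8,7,0), (5,7,8,0,6),
  (1,0,2,7,6), (0,1,4,3,5), (0,1,8,3,5), (0,2,3,1,4), (4,0,2,1,6), (0,2,5,1,3), (0,2,6,1,8),
  (0,2,7,1,3), (0,2,8,1,6), (0,4,6,1,2), (0,4,8,1,2), (1,2,3,0,4), (1,2,4,0,3), (7,1,2,0,8),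
  (1,2,8,7,0), (1,5,6,0,2), (1,5,7,0,6), (1,5,8,0,6), (1,7,8,0,2), (2,3,4,0,1), (2,3,5,0,6),
  (2,3,7,0,6), (2,4,5,1,0), (2,4,7,1,0), (2,5,8,0,1)]

/-- the ten codes of the starting sets -/
def basis : List ℕ := [41, 70, 161, 11, 137, 56, 168, 448, 392, 67]

theorem all_reached : ∀ i j k : Fin 9, (i == j || i == k || j == k ||
    (steps.foldl step basis).contains (cd i j k)) = true := by
  decide +kernel

/-- the multiple of `w` -/
noncomputable def lam (v : Finset (Fin 9) → ℝ) : ℝ :=
  v (dec 11) + v (dec 448) - v (dec 392) - v (dec 67)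

/-- the linear form -/
noncomputable def lf (v : Finset (Fin 9) → ℝ) : Fin 9 → ℝ := ![
  1/3 * v (dec 41) + 1/3 * v (dec 161) + 1/3 * v (dec 137) - 2/3 * v (dec 168),
  -2/3 * v (dec 41) + 1/3 * v (dec 161) + v (dec 11) - 2/3 * v (dec 137) + 1/3 * v (dec 168),
  1/3 * v (dec 41) + v (dec 70) + 1/3 * v (dec 161) - v (dec 11) + 1/3 * v (dec 137) - 2/3 * v (dec 168) - v (dec 448) + v (dec 392),
  1/3 * v (dec 41) - 2/3 * v (dec 161) + 1/3 * v (dec 137) + 1/3 * v (dec 168),
  -2/3 * v (dec 41) + 1/3 * v (dec 161) + 1/3 * v (dec 137) + v (dec 56) - 2/3 * v (dec 168),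
  1/3 * v (dec 41) + 1/3 * v (dec 161) - 2/3 * v (dec 137) + 1/3 * v (dec 168),
  1/3 * v (dec 41) - 2/3 * v (dec 161) - v (dec 11) + 1/3 * v (dec 137) + 1/3 * v (dec 168) + v (dec 67),
  -2/3 * v (dec 41) + 1/3 * v (dec 161) + 1/3 * v (dec 137) + 1/3 * v (dec 168),
  1/3 * v (dec 41) + 1/3 * v (dec 161) - 2/3 * v (dec 137) - 2/3 * v (dec 168) + v (dec 392)]

theorem basis_zero (v : Finset (Fin 9) → ℝ) : ∀ m ∈ basis, sub v (lam v) (lf v) (dec m) = 0 := by
  intro m hm
  simp only [basis, List.mem_cons, List.not_mem_nil, or_false] at hm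
  rcases hm with rfl | rfl | rfl | rfl | rfl | rfl | rfl | rfl | rfl | rfl
  · have e : dec 41 = insert 0 (insert 3 {5}) := dec3 0 3 5 (by decide) (by decide) (by decide)
    have e2 : (T (cd 0 3 5) : ℝ) = 0 := by
      have : T (cd 0 3 5) = 0 := by decide +kernel
      rw [this]; norm_num
    unfold sub
    rw [e, w3 (by decide) (by decide) (by decide), sum3 _ (by decide) (by decide) (by decide), e2]
    rw [← e]
    simp only [lam, lf, Matrix.cons_val]
    ring
  · have e : dec 70 = insert 1 (insert 2 {6}) := dec3 1 2 6 (by decide) (by decide) (by decide)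
    have e2 : (T (cd 1 2 6) : ℝ) = 1 := by
      have : T (cd 1 2 6) = 1 := by decide +kernel
      rw [this]; norm_num
    unfold sub
    rw [e, w3 (by decide) (by decide) (by decide), sum3 _ (by decide) (by decide) (by decide), e2]
    rw [← e]
    simp only [lam, lf, Matrix.cons_val]
    ring
  · have e : dec 161 = insert 0 (insert 5 {7}) := dec3 0 5 7 (by decide) (by decide) (by decide)
    have e2 : (T (cd 0 5 7) : ℝ) = 0 := by
      have : T (cd 0 5 7) = 0 := by decide +kernel
      rw [this]; norm_num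
    unfold sub
    rw [e, w3 (by decide) (by decide) (by decide), sum3 _ (by decide) (by decide) (by decide), e2]
    rw [← e]
    simp only [lam, lf, Matrix.cons_val]
    ring
  · have e : dec 11 = insert 0 (insert 1 {3}) := dec3 0 1 3 (by decide) (by decide) (by decide)
    have e2 : (T (cd 0 1 3) : ℝ) = 0 := by
      have : T (cd 0 1 3) = 0 := by decide +kernel
      rw [this]; norm_num
    unfold sub
    rw [e, w3 (by decide) (by decide) (by decide), sum3 _ (by decide) (by decide) (by decide), e2]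
    rw [← e]
    simp only [lam, lf, Matrix.cons_val]
    ring
  · have e : dec 137 = insert 0 (insert 3 {7}) := dec3 0 3 7 (by decide) (by decide) (by decide)
    have e2 : (T (cd 0 3 7) : ℝ) = 0 := by
      have : T (cd 0 3 7) = 0 := by decide +kernel
      rw [this]; norm_num
    unfold sub
    rw [e, w3 (by decide) (by decide) (by decide), sum3 _ (by decide) (by decide) (by decide), e2]
    rw [← e]
    simp only [lam, lf, Matrix.cons_val]
    ring
  · have e : dec 56 = insert 3 (insert 4 {5}) := dec3 3 4 5 (by decide) (by decide) (by decide)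
    have e2 : (T (cd 3 4 5) : ℝ) = 0 := by
      have : T (cd 3 4 5) = 0 := by decide +kernel
      rw [this]; norm_num
    unfold sub
    rw [e, w3 (by decide) (by decide) (by decide), sum3 _ (by decide) (by decide) (by decide), e2]
    rw [← e]
    simp only [lam, lf, Matrix.cons_val]
    ring
  · have e : dec 168 = insert 3 (insert 5 {7}) := dec3 3 5 7 (by decide) (by decide) (by decide)
    have e2 : (T (cd 3 5 7) : ℝ) = 0 := by
      have : T (cd 3 5 7) = 0 := by decide +kernel
      rw [this]; norm_num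
    unfold sub
    rw [e, w3 (by decide) (by decide) (by decide), sum3 _ (by decide) (by decide) (by decide), e2]
    rw [← e]
    simp only [lam, lf, Matrix.cons_val]
    ring
  · have e : dec 448 = insert 6 (insert 7 {8}) := dec3 6 7 8 (by decide) (by decide) (by decide)
    have e2 : (T (cd 6 7 8) : ℝ) = 1 := by
      have : T (cd 6 7 8) = 1 := by decide +kernel
      rw [this]; norm_num
    unfold sub
    rw [e, w3 (by decide) (by decide) (by decide), sum3 _ (by decide) (by decide) (by decide), e2]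
    rw [← e]
    simp only [lam, lf, Matrix.cons_val]
    ring
  · have e : dec 392 = insert 3 (insert 7 {8}) := dec3 3 7 8 (by decide) (by decide) (by decide)
    have e2 : (T (cd 3 7 8) : ℝ) = 0 := by
      have : T (cd 3 7 8) = 0 := by decide +kernel
      rw [this]; norm_num
    unfold sub
    rw [e, w3 (by decide) (by decide) (by decide), sum3 _ (by decide) (by decide) (by decide), e2]
    rw [← e]
    simp only [lam, lf, Matrix.cons_val]
    ring
  · have e : dec 67 = insert 0 (insert 1 {6}) := dec3 0 1 6 (by decide) (by decide) (by decide)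
    have e2 : (T (cd 0 1 6) : ℝ) = 0 := by
      have : T (cd 0 1 6) = 0 := by decide +kernel
      rw [this]; norm_num
    unfold sub
    rw [e, w3 (by decide) (by decide) (by decide), sum3 _ (by decide) (by decide) (by decide), e2]
    rw [← e]
    simp only [lam, lf, Matrix.cons_val]
    ring

/-- every vector satisfying the equations is a multiple of `w` plus a linear form -/
theorem octa_rep {v : Finset (Fin 9) → ℝ} (hv : Octa v) (B : Finset (Fin 9)) (hB : B.card = 3) :
    v B = lam v * w B + ∑ i ∈ B, lf v i := by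
  obtain ⟨i, j, k, hij, hik, hjk, rfl⟩ := Finset.card_eq_three.1 hB
  have h1 := fold_sound (octa_sub hv (lam v) (lf v)) steps basis (basis_zero v) (cd i j k) (by
    have := all_reached i j k
    simp only [Bool.or_eq_true, beq_iff_eq, hij, hik, hjk, false_or, List.contains_iff_mem] at this
    exact this)
  unfold sub at h1
  rw [dec3 i j k hij hik hjk] at h1
  linarith

end Pool.Agent.K1H42.Dress
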